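import Pool.Agent.Lib.MP_6717ce_co.Main

/-! A convex polyomino that is a reptile contains a whole side of its bounding box. -/

namespace Pool.Agent.Results.MP_6717ce_co.Convex

open Pool.Agent.Lib.MP_6717ce_co

theorem result (S : Finset (ℤ × ℤ)) (hne : S.Nonempty) (hc : EdgeConnected S)
    (hrow : ∀ x₁ x x₂ y : ℤ, (x₁, y) ∈ S → (x₂, y) ∈ S → x₁ ≤ x → x ≤ x₂ → (x, y) ∈ S)
    (hcol : ∀ x y₁ y y₂ : ℤ, (x, y₁) ∈ S → (x, y₂) ∈ S → y₁ ≤ y → y ≤ y₂ → (x, y) ∈ S)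
    (n : ℕ) (hn : 2 ≤ n) (h : IsRep n (region S)) :
    (∃ y : ℤ, (∀ c ∈ S, (c.1, y) ∈ S) ∧ ((∀ c ∈ S, y ≤ c.2) ∨ ∀ c ∈ S, c.2 ≤ y)) ∨
      ∃ x : ℤ, (∀ c ∈ S, (x, c.2) ∈ S) ∧ ((∀ c ∈ S, x ≤ c.1) ∨ ∀ c ∈ S, c.1 ≤ x) :=
  convex_main S hne hc ⟨hrow, hcol⟩ hn h

end Pool.Agent.Results.MP_6717ce_co.Convex
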