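import Pool.Agent.Lib.MP_6717ce_co.Main

/-! A centrally symmetric polyomino is a reptile if and only if it is a rectangle. -/

namespace Pool.Agent.Results.MP_6717ce_co.Symmetric

open Pool.Agent.Lib.MP_6717ce_co

theorem result (S : Finset (ℤ × ℤ)) (hne : S.Nonempty) (hc : EdgeConnected S)
    (hs : ∃ o : Plane, (fun p => o - p) '' region S = region S) :
    (∃ n : ℕ, 2 ≤ n ∧ IsRep n (region S)) ↔
      ∃ a b c d : ℤ, S = Finset.Icc a b ×ˢ Finset.Icc c d :=
  symmetric_main S hne hc hs

end Pool.Agent.Results.MP_6717ce_co.Symmetric
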